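import Pool.Agent.Lib.MP_d821cf_co.Sub.Range

/-!
# MP_d821cf_co: the proportion of Costas permutations is monotone at distance `n^(7/8+o(1))`
-/

namespace Pool.Agent.Results.MP_d821cf_co.LongRangePower

open Pool.MP_d821cf_co

theorem result : ∃ c : ℝ, 0 < c ∧ ∀ n : ℕ, 2 ≤ n → 0 < C n → ∀ m : ℕ,
    (n : ℝ) + c * ((n : ℝ) ^ (7 / 8 : ℝ) * Real.log n ^ (1 / 8 : ℝ)) ≤ m → r m < r n :=
  Sub.long_range

end Pool.Agent.Results.MP_d821cf_co.LongRangePower
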