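import Pool.Agent.Lib.MP_d821cf_co.Sub.Final

/-!
# MP_d821cf_co: the number of Costas permutations is subexponential

Proof (all files in `Pool/Agent/Lib/MP_d821cf_co/Sub`). Let `A ⊆ [0, n)²` be a Costas array, a Sidon
set with `n` elements, and `δ = (2^29 log n / n)^(1/8)`.
* `Prob`, `Kill`: a random `B ⊆ A` of density `δ` excludes every point `x` that has at least `R`
  representations `x = a₁ + a₂ - a₃` with elements of `A`; such a `B` with at most `2 δ n` elements is
  fixed for every `A`.
* `Lind`: Lindström's inequality: at scale `u = δ² n / 128` only a small part of all differences is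
  missing in `A - A`.
* `Shatter`: let `Y` be shattered by the class of all arrays with the same `B`. Split `Y = Z ∪ W`
  and take arrays `A`, `A'` in the class with `A ∩ Y = Z` and `Y ⊆ A'`. The differences `W - Z` are
  distinct because `A'` is a Sidon set, and nearly all of them are missing in `A - A`, because the
  points of `W` are not excluded by `B`. Hence `|Y| ≤ δ n + 1`.
* `Family`, `Final`: the Sauer–Shelah lemma bounds the size of every class.
-/

namespace Pool.Agent.Results.MP_d821cf_co.Subexponential

open Pool.MP_d821cf_co

theorem result : ∀ n : ℕ, 2 ≤ n →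
    (C n : ℝ) ≤ Real.exp (200 * ((n : ℝ) ^ (7 / 8 : ℝ) * Real.log n ^ (9 / 8 : ℝ))) :=
  Sub.C_subexp

end Pool.Agent.Results.MP_d821cf_co.Subexponential
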